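import Pool.Agent.H84.Sym.Defs
import Pool.Agent.H84.Unc.Linear

/-!
# Linear symmetries: reduction to orthogonal symmetries by an isotropic position
-/

set_option autoImplicit false

open MeasureTheory Measure Set
open scoped Pointwise ENNReal

namespace Pool.Agent.H84.Sym

open Pool.Agent.H84 Pool.Agent.H84.Unc

variable {n : ℕ}

/-- The second moment form of a set. -/
noncomputable def covB {K : Set (EuclideanSpace ℝ (Fin n))} {R : ℝ} (hK : CB K R) :
    LinearMap.BilinForm ℝ (EuclideanSpace ℝ (Fin n)) :=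
  LinearMap.mk₂ ℝ (fun a b => ∫ x in K, (inner ℝ a x : ℝ) * (inner ℝ b x : ℝ))
    (fun a a' b => by
      have h1 : IntegrableOn (fun x => (inner ℝ a x : ℝ) * (inner ℝ b x : ℝ)) K :=
        (hK.bm_of_cont (by fun_prop)).integrableOn hK
      have h2 : IntegrableOn (fun x => (inner ℝ a' x : ℝ) * (inner ℝ b x : ℝ)) K :=
        (hK.bm_of_cont (by fun_prop)).integrableOn hK
      rw [← integral_add h1 h2]
      refine integral_congr_ae (Filter.Eventually.of_forall fun x => ?_)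
      simp only [inner_add_left]
      ring)
    (fun c a b => by
      rw [smul_eq_mul, ← integral_const_mul]
      refine integral_congr_ae (Filter.Eventually.of_forall fun x => ?_)
      simp only [real_inner_smul_left]
      ring)
    (fun a b b' => by
      have h1 : IntegrableOn (fun x => (inner ℝ a x : ℝ) * (inner ℝ b x : ℝ)) K :=
        (hK.bm_of_cont (by fun_prop)).integrableOn hK
      have h2 : IntegrableOn (fun x => (inner ℝ a x : ℝ) * (inner ℝ b' x : ℝ)) K :=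
        (hK.bm_of_cont (by fun_prop)).integrableOn hK
      rw [← integral_add h1 h2]
      refine integral_congr_ae (Filter.Eventually.of_forall fun x => ?_)
      simp only [inner_add_left]
      ring)
    (fun c a b => by
      rw [smul_eq_mul, ← integral_const_mul]
      refine integral_congr_ae (Filter.Eventually.of_forall fun x => ?_)
      simp only [real_inner_smul_left]
      ring)

theorem covB_apply {K : Set (EuclideanSpace ℝ (Fin n))} {R : ℝ} (hK : CB K R)
    (a b : EuclideanSpace ℝ (Fin n)) :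
    covB hK a b = ∫ x in K, (inner ℝ a x : ℝ) * (inner ℝ b x : ℝ) := rfl

theorem covB_pos {K : Set (EuclideanSpace ℝ (Fin n))} {R : ℝ} (hK : CB K R) (hKo : IsOpen K)
    (h0 : (0 : EuclideanSpace ℝ (Fin n)) ∈ K) {a : EuclideanSpace ℝ (Fin n)} (ha : a ≠ 0) :
    0 < covB hK a a := by
  rw [covB_apply]
  have hsq : ∀ x : EuclideanSpace ℝ (Fin n), (inner ℝ a x : ℝ) * (inner ℝ a x : ℝ)
      = (inner ℝ a x : ℝ) ^ 2 := fun x => by ring
  simp only [hsq]
  have hint : IntegrableOn (fun x : EuclideanSpace ℝ (Fin n) => (inner ℝ a x : ℝ) ^ 2) K :=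
    (hK.bm_of_cont (by fun_prop)).integrableOn hK
  rw [setIntegral_pos_iff_support_of_nonneg_ae
    (Filter.Eventually.of_forall fun x => by positivity) hint]
  obtain ⟨δ, hδ, hδs⟩ := Metric.isOpen_iff.1 hKo 0 h0
  have hopen : IsOpen (Function.support
      (fun x : EuclideanSpace ℝ (Fin n) => (inner ℝ a x : ℝ) ^ 2) ∩ K) := by
    refine IsOpen.inter ?_ hKo
    have : Continuous fun x : EuclideanSpace ℝ (Fin n) => (inner ℝ a x : ℝ) ^ 2 := by fun_prop
    exact isOpen_ne.preimage this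
  have hna : 0 < ‖a‖ := norm_pos_iff.2 ha
  refine hopen.measure_pos volume ⟨(δ / (2 * ‖a‖)) • a, ?_, hδs ?_⟩
  · simp only [Function.mem_support, ne_eq]
    rw [real_inner_smul_right, real_inner_self_eq_norm_sq]
    positivity
  · rw [Metric.mem_ball, dist_zero_right, norm_smul, Real.norm_of_nonneg (by positivity)]
    rw [div_mul_eq_mul_div, div_lt_iff₀ (by positivity)]
    nlinarith

/-- A basis which is orthonormal for the normalised second moment form. -/
theorem exists_iso_basis {K : Set (EuclideanSpace ℝ (Fin n))} {R : ℝ} (hK : CB K R)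
    (hKo : IsOpen K) (h0 : (0 : EuclideanSpace ℝ (Fin n)) ∈ K) :
    ∃ v : Module.Basis (Fin n) ℝ (EuclideanSpace ℝ (Fin n)), ∀ i j,
      ∫ x in K, (inner ℝ (v i) x : ℝ) * (inner ℝ (v j) x : ℝ)
        = if i = j then volume.real K else 0 := by
  have hV : 0 < volume.real K := ENNReal.toReal_pos hK.vol0 hK.lt_top.ne
  have hsymm : LinearMap.IsSymm (covB hK) := ⟨fun a b => by
    simp only [covB_apply, RingHom.id_apply]
    refine integral_congr_ae (Filter.Eventually.of_forall fun x => ?_)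
    simp only
    ring⟩
  obtain ⟨v0, hv0⟩ := LinearMap.BilinForm.exists_orthogonal_basis hsymm
  have hfr : Module.finrank ℝ (EuclideanSpace ℝ (Fin n)) = n := by simp
  set v1 := v0.reindex (finCongr hfr) with hv1
  have hv1o : ∀ i j, i ≠ j → covB hK (v1 i) (v1 j) = 0 := by
    intro i j hij
    rw [hv1, Module.Basis.reindex_apply, Module.Basis.reindex_apply]
    exact hv0 (fun h => hij ((finCongr hfr).symm.injective h))
  have hpos : ∀ i, 0 < covB hK (v1 i) (v1 i) := fun i => covB_pos hK hKo h0 (v1.ne_zero i)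
  set t : Fin n → ℝ := fun i => Real.sqrt (volume.real K / covB hK (v1 i) (v1 i)) with ht
  have ht0 : ∀ i, 0 < t i := fun i => Real.sqrt_pos.2 (div_pos hV (hpos i))
  refine ⟨v1.isUnitSMul (fun i => (ht0 i).ne'.isUnit), fun i j => ?_⟩
  rw [Module.Basis.isUnitSMul_apply, Module.Basis.isUnitSMul_apply, ← covB_apply hK, map_smul,
    LinearMap.map_smul, LinearMap.smul_apply, smul_eq_mul, smul_eq_mul]
  by_cases hij : i = j
  · subst hij
    rw [if_pos rfl]
    have h1 : t i * t i = volume.real K / covB hK (v1 i) (v1 i) :=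
      Real.mul_self_sqrt (div_pos hV (hpos i)).le
    have h2 := (hpos i).ne'
    calc t i * (t i * covB hK (v1 i) (v1 i)) = (t i * t i) * covB hK (v1 i) (v1 i) := by ring
      _ = volume.real K := by rw [h1]; field_simp
  · rw [if_neg hij, hv1o i j hij]
    ring

/-- Isotropic position: second moments of all functionals. -/
theorem norm_sq_of_iso {K : Set (EuclideanSpace ℝ (Fin n))} {R : ℝ} (hK : CB K R)
    (hm : ∀ i j, ∫ y in K, y i * y j = if i = j then volume.real K else 0)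
    (m : EuclideanSpace ℝ (Fin n) →L[ℝ] ℝ) :
    volume.real K * ‖m‖ ^ 2 = ∫ y in K, (m y) ^ 2 := by
  set a : Fin n → ℝ := fun i => m (EuclideanSpace.single i 1) with ha
  have hmy : ∀ y, m y = ∑ i, a i * y i := by
    intro y
    have h1 : y = ∑ i, (y i) • (EuclideanSpace.single i (1:ℝ)) := by
      ext j
      simp [Finset.sum_apply, Pi.single_apply]
    conv_lhs => rw [h1]
    rw [_root_.map_sum]
    refine Finset.sum_congr rfl fun i _ => ?_
    rw [map_smul, smul_eq_mul, mul_comm]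
  have hsq : ∀ y : EuclideanSpace ℝ (Fin n), (m y) ^ 2 = ∑ i, ∑ j, (a i * a j) * (y i * y j) := by
    intro y
    rw [hmy, sq, Finset.sum_mul_sum]
    refine Finset.sum_congr rfl fun i _ => Finset.sum_congr rfl fun j _ => by ring
  have hint : ∀ i j, IntegrableOn (fun y : EuclideanSpace ℝ (Fin n) =>
      (a i * a j) * (y i * y j)) K := fun i j =>
    (hK.bm_of_cont (by fun_prop)).integrableOn hK
  simp only [hsq]
  rw [integral_finsetSum _ fun i _ => integrable_finsetSum _ fun j _ => hint i j]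
  rw [norm_sq_functional, Finset.mul_sum]
  refine Finset.sum_congr rfl fun i _ => ?_
  rw [integral_finsetSum _ fun j _ => hint i j, Finset.sum_eq_single i]
  · rw [integral_const_mul, hm i i, if_pos rfl]
    ring
  · intro j _ hji
    rw [integral_const_mul, hm i j, if_neg (Ne.symm hji), mul_zero]
  · intro h
    exact absurd (Finset.mem_univ i) h

/-- Linear automorphisms of a body in isotropic position are contractions. -/
theorem iso_contr {K : Set (EuclideanSpace ℝ (Fin n))} {R : ℝ} (hK : CB K R)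
    (hm : ∀ m : EuclideanSpace ℝ (Fin n) →L[ℝ] ℝ,
      volume.real K * ‖m‖ ^ 2 = ∫ y in K, (m y) ^ 2)
    (g : EuclideanSpace ℝ (Fin n) ≃L[ℝ] EuclideanSpace ℝ (Fin n)) (hg : g ⁻¹' K = K)
    (y : EuclideanSpace ℝ (Fin n)) : ‖g y‖ ≤ ‖y‖ := by
  have hV : 0 < volume.real K := ENNReal.toReal_pos hK.vol0 hK.lt_top.ne
  obtain ⟨D, hD, hjac⟩ := exists_jac g
  obtain ⟨h1, h2⟩ := hjac K hK.meas
  rw [hg] at h1 h2
  have hD1 : D = 1 := by
    have : volume.real K * D = volume.real K * 1 := by linarith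
    exact mul_left_cancel₀ hV.ne' this
  obtain ⟨l, hl1, hl2⟩ := exists_dual_vector'' ℝ (g y)
  have h3 : volume.real K * ‖l.comp
      (g : EuclideanSpace ℝ (Fin n) →L[ℝ] EuclideanSpace ℝ (Fin n))‖ ^ 2
      = volume.real K * ‖l‖ ^ 2 := by
    rw [hm, hm, h2 (fun y => (l y) ^ 2), hD1, one_mul]
    rfl
  have h4 : ‖l.comp (g : EuclideanSpace ℝ (Fin n) →L[ℝ] EuclideanSpace ℝ (Fin n))‖ ^ 2
      = ‖l‖ ^ 2 := mul_left_cancel₀ hV.ne' h3
  have h5 : ‖l.comp (g : EuclideanSpace ℝ (Fin n) →L[ℝ] EuclideanSpace ℝ (Fin n))‖ ≤ 1 := by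
    have h6 : ‖l.comp (g : EuclideanSpace ℝ (Fin n) →L[ℝ] EuclideanSpace ℝ (Fin n))‖ = ‖l‖ := by
      rw [← abs_of_nonneg (norm_nonneg (l.comp _)), ← abs_of_nonneg (norm_nonneg l)]
      exact (sq_eq_sq_iff_abs_eq_abs _ _).1 h4
    rw [h6]
    exact hl1
  have h7 : ‖g y‖ = (l.comp
      (g : EuclideanSpace ℝ (Fin n) →L[ℝ] EuclideanSpace ℝ (Fin n))) y := by
    have := hl2
    simp only [ContinuousLinearMap.comp_apply] 
    exact this.symm
  rw [h7]
  calc _ ≤ ‖(l.comp (g : EuclideanSpace ℝ (Fin n) →L[ℝ] EuclideanSpace ℝ (Fin n))) y‖ :=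
        Real.le_norm_self _
    _ ≤ ‖l.comp (g : EuclideanSpace ℝ (Fin n) →L[ℝ] EuclideanSpace ℝ (Fin n))‖ * ‖y‖ :=
        ContinuousLinearMap.le_opNorm _ _
    _ ≤ 1 * ‖y‖ := by gcongr
    _ = ‖y‖ := one_mul _

/-- The trace of the second moments over a subspace. -/
theorem iso_proj {K : Set (EuclideanSpace ℝ (Fin n))} {R : ℝ} (hK : CB K R)
    (hm : ∀ m : EuclideanSpace ℝ (Fin n) →L[ℝ] ℝ,
      volume.real K * ‖m‖ ^ 2 = ∫ y in K, (m y) ^ 2)
    (S : Submodule ℝ (EuclideanSpace ℝ (Fin n))) :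
    ∫ x in K, ‖S.orthogonalProjectionOnto x‖ ^ 2 = Module.finrank ℝ S * volume.real K := by
  set b := stdOrthonormalBasis ℝ S with hb
  have h1 : ∀ x, ‖S.orthogonalProjectionOnto x‖ ^ 2
      = ∑ i, (InnerProductSpace.toDual ℝ _ ((b i : S) : EuclideanSpace ℝ (Fin n)) x) ^ 2 := by
    intro x
    rw [← b.sum_sq_norm_inner_right]
    refine Finset.sum_congr rfl fun i _ => ?_
    rw [InnerProductSpace.toDual_apply_apply, Real.norm_eq_abs, sq_abs]
    congr 1
    rw [Submodule.inner_orthogonalProjectionOnto_eq_of_mem_left]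
  simp only [h1]
  have hint : ∀ i, IntegrableOn (fun x : EuclideanSpace ℝ (Fin n) =>
      (InnerProductSpace.toDual ℝ _ ((b i : S) : EuclideanSpace ℝ (Fin n)) x) ^ 2) K := fun i =>
    (hK.bm_of_cont (by fun_prop)).integrableOn hK
  rw [integral_finsetSum _ fun i _ => hint i]
  have h2 : ∀ i, ∫ x in K, (InnerProductSpace.toDual ℝ _
      ((b i : S) : EuclideanSpace ℝ (Fin n)) x) ^ 2 = volume.real K := by
    intro i
    rw [← hm, LinearIsometryEquiv.norm_map]
    have : ‖((b i : S) : EuclideanSpace ℝ (Fin n))‖ = 1 := b.norm_eq_one i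
    rw [this]
    ring
  simp only [h2]
  rw [Finset.sum_const, Finset.card_univ, Fintype.card_fin, nsmul_eq_mul]

/-- Module M3, with the orthogonal case as a hypothesis. -/
theorem lin_body_poincare_of {n m : ℕ}
    (hbp : ∀ (K : Set (EuclideanSpace ℝ (Fin (n + 1)))) (R : ℝ), CB K R →
      ∀ G : Set (EuclideanSpace ℝ (Fin (n + 1)) ≃ₗᵢ[ℝ] EuclideanSpace ℝ (Fin (n + 1))),
      (∀ g ∈ G, g '' K = K) → (∀ p : EuclideanSpace ℝ (Fin (n + 1)), (∀ g ∈ G, g p = p) → p = 0) →
      1 ≤ m → (∀ g ∈ G, Module.finrank ℝ (Mv (g.toLinearEquiv :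
        EuclideanSpace ℝ (Fin (n + 1)) →ₗ[ℝ] EuclideanSpace ℝ (Fin (n + 1)))) ≤ m) →
      ∀ T : ℝ, 0 < T → (∀ g ∈ G, ∫ x in K, ‖(Mv (g.toLinearEquiv :
        EuclideanSpace ℝ (Fin (n + 1)) →ₗ[ℝ] EuclideanSpace ℝ (Fin (n + 1)))).orthogonalProjectionOnto
          x‖ ^ 2 ≤ T ^ 2 * volume.real K) →
      PC K (56600 * Real.sqrt m * T))
    {Ω : Set (EuclideanSpace ℝ (Fin (n + 1)))} (hΩo : IsOpen Ω)
    (hΩc : Convex ℝ Ω) (hΩb : Bornology.IsBounded Ω) (h0 : (0 : EuclideanSpace ℝ (Fin (n + 1))) ∈ Ω)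
    {G : Set (EuclideanSpace ℝ (Fin (n + 1)) →ₗ[ℝ] EuclideanSpace ℝ (Fin (n + 1)))}
    (hinv : ∀ g ∈ G, g '' Ω = Ω)
    (hrk : ∀ g ∈ G, Module.finrank ℝ (LinearMap.range (g - LinearMap.id)) ≤ m)
    (hfix : ∀ p, (∀ g ∈ G, g p = p) → p = 0) {s : ℝ} (hs : 0 < s)
    (hcov : ∀ a : EuclideanSpace ℝ (Fin (n + 1)),
      ∫ x in Ω, (inner ℝ a x) ^ 2 ≤ s ^ 2 * ‖a‖ ^ 2 * volume.real Ω) :
    PC Ω (56600 * m * s) := by
  -- the body
  obtain ⟨R1, hR1⟩ := hΩb.subset_closedBall 0
  have hΩ : CB Ω R1 := ⟨hΩc, hΩo.measurableSet, hR1, (hΩo.measure_pos volume ⟨0, h0⟩).ne'⟩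
  have hVΩ : 0 < volume.real Ω := ENNReal.toReal_pos hΩ.vol0 hΩ.lt_top.ne
  obtain ⟨v, hv⟩ := exists_iso_basis hΩ hΩo h0
  -- the linear map
  let T0 : EuclideanSpace ℝ (Fin (n + 1)) →ₗ[ℝ] EuclideanSpace ℝ (Fin (n + 1)) :=
    { toFun := fun x => WithLp.toLp 2 (fun i => (inner ℝ (v i) x : ℝ))
      map_add' := fun x y => by ext i; simp [inner_add_right]
      map_smul' := fun c x => by ext i; simp [inner_smul_right] }
  have hT0 : ∀ x i, T0 x i = (inner ℝ (v i) x : ℝ) := fun x i => rfl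
  have hinj : Function.Injective T0 := by
    rw [injective_iff_map_eq_zero]
    intro x hx
    refine InnerProductSpace.ext_inner_left_basis v (fun i => ?_)
    rw [inner_zero_right, ← hT0 x i, hx]
    rfl
  let TE : EuclideanSpace ℝ (Fin (n + 1)) ≃L[ℝ] EuclideanSpace ℝ (Fin (n + 1)) :=
    (LinearEquiv.ofInjectiveEndo T0 hinj).toContinuousLinearEquiv
  have hTE : ∀ x i, TE x i = (inner ℝ (v i) x : ℝ) := fun x i => rfl
  set Ψ := TE.symm with hΨ
  have hTΨ : ∀ y, TE (Ψ y) = y := fun y => TE.apply_symm_apply y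
  have hΨT : ∀ y, Ψ (TE y) = y := fun y => TE.symm_apply_apply y
  set K := Ψ ⁻¹' Ω with hKd
  obtain ⟨R0, hK⟩ : ∃ R, CB K R := by
    have hop : IsOpen (Ψ ⁻¹' Ω) := hΩo.preimage Ψ.continuous
    have hbd : Bornology.IsBounded (Ψ ⁻¹' Ω) := by
      have h1 : Ψ ⁻¹' Ω = Ψ.symm '' Ω := by
        ext y
        simp only [mem_preimage, mem_image]
        constructor
        · intro h
          exact ⟨Ψ y, h, by simp⟩
        · rintro ⟨x, hx, rfl⟩
          simpa using hx
      rw [h1]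
      exact Ψ.symm.lipschitz.isBounded_image hΩb
    obtain ⟨R, hR⟩ := hbd.subset_closedBall 0
    refine ⟨R, ⟨?_, hop.measurableSet, hR, ?_⟩⟩
    · exact hΩc.linear_preimage Ψ.toLinearEquiv.toLinearMap
    · exact (hop.measure_pos volume ⟨0, by simpa using h0⟩).ne'
  have hVK : 0 < volume.real K := ENNReal.toReal_pos hK.vol0 hK.lt_top.ne
  obtain ⟨D, hD, hjac⟩ := exists_jac Ψ
  obtain ⟨hvol, hI⟩ := hjac Ω hΩo.measurableSet
  rw [← hKd] at hvol hI
  have hm : ∀ i j, ∫ y in K, y i * y j = if i = j then volume.real K else 0 := by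
    intro i j
    have h1 := hI (fun x => (inner ℝ (v i) x : ℝ) * (inner ℝ (v j) x : ℝ))
    have h2 : ∀ y, (inner ℝ (v i) (Ψ y) : ℝ) * (inner ℝ (v j) (Ψ y) : ℝ) = y i * y j := by
      intro y
      rw [← hTE, ← hTE, hTΨ]
    simp only [h2] at h1
    rw [hv i j, hvol] at h1
    have h3 : D * (if i = j then volume.real K else 0) = D * ∫ y in K, y i * y j := by
      rw [← h1]
      split_ifs <;> simp
    exact (mul_left_cancel₀ hD.ne' h3).symm
  have hfun := norm_sq_of_iso hK hm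
  -- the orthogonal symmetries
  set G' : Set (EuclideanSpace ℝ (Fin (n + 1)) ≃ₗᵢ[ℝ] EuclideanSpace ℝ (Fin (n + 1))) :=
    {γ | ∃ g ∈ G, ∀ y, Ψ (γ y) = g (Ψ y)} with hG'
  have hex : ∀ g ∈ G, ∃ γ ∈ G', ∀ y, Ψ (γ y) = g (Ψ y) := by
    intro g hg
    have hsurj : Function.Surjective g := by
      rw [← LinearMap.range_eq_top]
      refine Submodule.eq_top_of_nonempty_interior' _ ⟨0, ?_⟩
      rw [mem_interior]
      refine ⟨Ω, ?_, hΩo, h0⟩
      rw [← hinv g hg]
      rintro _ ⟨x, _, rfl⟩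
      exact ⟨x, rfl⟩
    have hinjg : Function.Injective g := LinearMap.injective_iff_surjective.2 hsurj
    let gE : EuclideanSpace ℝ (Fin (n + 1)) ≃L[ℝ] EuclideanSpace ℝ (Fin (n + 1)) :=
      (LinearEquiv.ofBijective g ⟨hinjg, hsurj⟩).toContinuousLinearEquiv
    have hgE : ∀ x, gE x = g x := fun x => rfl
    set g' := (Ψ.trans gE).trans TE with hg'
    have hg'a : ∀ y, Ψ (g' y) = g (Ψ y) := by
      intro y
      rw [hg', ContinuousLinearEquiv.trans_apply, ContinuousLinearEquiv.trans_apply, hΨT, hgE]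
    have hmem : ∀ x, g x ∈ Ω ↔ x ∈ Ω := by
      intro x
      constructor
      · intro h
        rw [← hinv g hg] at h
        obtain ⟨z, hz, hzx⟩ := h
        rw [← hinjg hzx]
        exact hz
      · intro h
        rw [← hinv g hg]
        exact ⟨x, h, rfl⟩
    have hpre : g' ⁻¹' K = K := by
      ext y
      rw [mem_preimage, hKd, mem_preimage, mem_preimage, hg'a, hmem]
    have hpre' : g'.symm ⁻¹' K = K := by
      ext y
      rw [mem_preimage]
      constructor
      · intro h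
        have h2 : g'.symm y ∈ g' ⁻¹' K := by rw [hpre]; exact h
        rw [mem_preimage, ContinuousLinearEquiv.apply_symm_apply] at h2
        exact h2
      · intro h
        rw [← hpre, mem_preimage, ContinuousLinearEquiv.apply_symm_apply]
        exact h
    have hnorm : ∀ y, ‖g' y‖ = ‖y‖ := by
      intro y
      refine le_antisymm (iso_contr hK hfun g' hpre y) ?_
      have := iso_contr hK hfun g'.symm hpre' (g' y)
      rwa [ContinuousLinearEquiv.symm_apply_apply] at this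
    let γ : EuclideanSpace ℝ (Fin (n + 1)) ≃ₗᵢ[ℝ] EuclideanSpace ℝ (Fin (n + 1)) :=
      ⟨g'.toLinearEquiv, hnorm⟩
    have hγ : ∀ y, Ψ (γ y) = g (Ψ y) := hg'a
    exact ⟨γ, ⟨g, hg, hγ⟩, hγ⟩
  have hmpos : 1 ≤ m := by
    by_contra hm0
    have hm0 : m = 0 := by omega
    have h1 : ∀ p : EuclideanSpace ℝ (Fin (n + 1)), p = 0 := by
      intro p
      refine hfix p fun g hg => ?_
      have h2 := hrk g hg
      rw [hm0, Nat.le_zero, Submodule.finrank_eq_zero, LinearMap.range_eq_bot, sub_eq_zero] at h2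
      rw [h2]
      rfl
    have h2 := h1 (EuclideanSpace.single 0 1)
    have h3 : (EuclideanSpace.single (0 : Fin (n + 1)) (1:ℝ)) 0 = 0 := by rw [h2]; rfl
    simp at h3
  have hG'inv : ∀ γ ∈ G', γ '' K = K := by
    rintro γ ⟨g, hg, hγ⟩
    ext x
    constructor
    · rintro ⟨y, hy, rfl⟩
      rw [hKd, mem_preimage] at hy ⊢
      rw [hγ, ← hinv g hg]
      exact ⟨_, hy, rfl⟩
    · intro hx
      rw [hKd, mem_preimage, ← hinv g hg] at hx
      obtain ⟨z, hz, hzx⟩ := hx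
      refine ⟨TE z, ?_, ?_⟩
      · rw [hKd, mem_preimage, hΨT]
        exact hz
      · apply Ψ.injective
        rw [hγ, hΨT, hzx]
  have hG'fix : ∀ p : EuclideanSpace ℝ (Fin (n + 1)), (∀ γ ∈ G', γ p = p) → p = 0 := by
    intro p hp
    have h1 : Ψ p = 0 := by
      refine hfix _ fun g hg => ?_
      obtain ⟨γ, hγG, hγ⟩ := hex g hg
      rw [← hγ, hp γ hγG]
    rw [← hTΨ p, h1, map_zero]
  have hG'rk : ∀ γ ∈ G', Module.finrank ℝ (Mv (γ.toLinearEquiv :
        EuclideanSpace ℝ (Fin (n + 1)) →ₗ[ℝ] EuclideanSpace ℝ (Fin (n + 1)))) ≤ m := by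
    rintro γ ⟨g, hg, hγ⟩
    refine le_trans ?_ (hrk g hg)
    set A : EuclideanSpace ℝ (Fin (n + 1)) →ₗ[ℝ] EuclideanSpace ℝ (Fin (n + 1)) :=
      (γ.toLinearEquiv : EuclideanSpace ℝ (Fin (n + 1)) →ₗ[ℝ] EuclideanSpace ℝ (Fin (n + 1)))
        - LinearMap.id with hA
    have h1 : Module.finrank ℝ (Mv (γ.toLinearEquiv :
        EuclideanSpace ℝ (Fin (n + 1)) →ₗ[ℝ] EuclideanSpace ℝ (Fin (n + 1))))
        = Module.finrank ℝ (LinearMap.range A) := by
      have h2 := Submodule.finrank_add_finrank_orthogonal (LinearMap.ker A)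
      have h3 := LinearMap.finrank_range_add_finrank_ker A
      rw [Mv, ← hA]
      omega
    rw [h1]
    have h4 : A = (TE.toLinearEquiv : EuclideanSpace ℝ (Fin (n + 1)) →ₗ[ℝ]
        EuclideanSpace ℝ (Fin (n + 1))).comp ((g - LinearMap.id).comp
          (Ψ.toLinearEquiv : EuclideanSpace ℝ (Fin (n + 1)) →ₗ[ℝ]
            EuclideanSpace ℝ (Fin (n + 1)))) := by
      refine LinearMap.ext fun y => ?_
      change γ y - y = TE (g (Ψ y) - Ψ y)
      rw [← hγ, map_sub, hTΨ, hTΨ]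
    rw [h4, LinearMap.range_comp]
    refine (Submodule.finrank_map_le _ _).trans ?_
    refine Submodule.finrank_mono ?_
    exact LinearMap.range_comp_le_range _ _
  have hmom : ∀ γ ∈ G', ∫ x in K, ‖(Mv (γ.toLinearEquiv :
        EuclideanSpace ℝ (Fin (n + 1)) →ₗ[ℝ] EuclideanSpace ℝ (Fin (n + 1)))).orthogonalProjectionOnto
          x‖ ^ 2 ≤ (Real.sqrt m) ^ 2 * volume.real K := by
    intro γ hγ
    rw [iso_proj hK hfun, Real.sq_sqrt (Nat.cast_nonneg m)]
    have := hG'rk γ hγ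
    gcongr
  have hmR : (0:ℝ) < m := by exact_mod_cast hmpos
  have hPC := hbp K R0 hK G' hG'inv hG'fix hmpos hG'rk (Real.sqrt m) (Real.sqrt_pos.2 hmR) hmom
  rw [mul_assoc, Real.mul_self_sqrt hmR.le] at hPC
  refine PC_lin Ψ hΩo.measurableSet hK hPC hs.le fun l => ?_
  obtain ⟨w, rfl⟩ := (InnerProductSpace.toDual ℝ (EuclideanSpace ℝ (Fin (n + 1)))).surjective l
  have h1 := hfun (((InnerProductSpace.toDual ℝ (EuclideanSpace ℝ (Fin (n + 1)))) w).comp
    (Ψ : EuclideanSpace ℝ (Fin (n + 1)) →L[ℝ] EuclideanSpace ℝ (Fin (n + 1))))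
  have h2 := hcov w
  have h3 := hI (fun x => (inner ℝ w x : ℝ) ^ 2)
  rw [h3, hvol] at h2
  have h4 : ∫ y in K, ((((InnerProductSpace.toDual ℝ (EuclideanSpace ℝ (Fin (n + 1)))) w).comp
      (Ψ : EuclideanSpace ℝ (Fin (n + 1)) →L[ℝ] EuclideanSpace ℝ (Fin (n + 1)))) y) ^ 2
      = ∫ y in K, (inner ℝ w (Ψ y) : ℝ) ^ 2 := rfl
  rw [h4] at h1
  rw [LinearIsometryEquiv.norm_map]
  apply le_of_sq_le_sq _ (by positivity)
  rw [mul_pow]
  have h5 : (D * volume.real K) * ‖((InnerProductSpace.toDual ℝ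
      (EuclideanSpace ℝ (Fin (n + 1)))) w).comp
      (Ψ : EuclideanSpace ℝ (Fin (n + 1)) →L[ℝ] EuclideanSpace ℝ (Fin (n + 1)))‖ ^ 2 ≤
      (D * volume.real K) * (s ^ 2 * ‖w‖ ^ 2) := by
    rw [mul_assoc, h1]
    linarith
  exact le_of_mul_le_mul_left h5 (by positivity)

end Pool.Agent.H84.Sym
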